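import Pool.Agent.Helper99.SI.StD

set_option autoImplicit false

/-!
# Project SI, module D8: the off-diagonal estimate
-/

namespace Pool.Agent.Helper12.SI

open Pool.Agent.Helper99.SI

/-! ### functions which are Lipschitz at one -/

/-- Lipschitz at one -/
def Lip1 {E : Type} [SeminormedAddCommGroup E] (f : ℝ → E) : Prop :=
  ∃ C : ℝ, 0 ≤ C ∧ ∀ u : ℝ, 1 / 2 ≤ u → u ≤ 1 → ‖f u - f 1‖ ≤ C * (1 - u)

theorem lip_const {E : Type} [SeminormedAddCommGroup E] (a : E) : Lip1 fun _ : ℝ => a := by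
  refine ⟨0, le_rfl, fun u _ _ => ?_⟩
  simp

theorem lip_add {E : Type} [SeminormedAddCommGroup E] {f g : ℝ → E} (hf : Lip1 f) (hg : Lip1 g) :
    Lip1 fun u => f u + g u := by
  obtain ⟨C, hC, h⟩ := hf
  obtain ⟨C', hC', h'⟩ := hg
  refine ⟨C + C', by positivity, fun u hu hu1 => ?_⟩
  have e : f u + g u - (f 1 + g 1) = (f u - f 1) + (g u - g 1) := by abel
  rw [e, add_mul]
  exact (norm_add_le _ _).trans (add_le_add (h u hu hu1) (h' u hu hu1))

theorem lip_sum {E ι : Type} [SeminormedAddCommGroup E] (s : Finset ι) (f : ι → ℝ → E)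
    (h : ∀ i ∈ s, Lip1 (f i)) : Lip1 fun u => ∑ i ∈ s, f i u := by
  classical
  induction s using Finset.induction_on with
  | empty => simpa using lip_const (0 : E)
  | insert i s hi ih =>
    simp only [Finset.sum_insert hi]
    exact lip_add (h i (Finset.mem_insert_self i s))
      (ih fun j hj => h j (Finset.mem_insert_of_mem hj))

theorem lip_aux {a b c d : ℝ} (C C' t : ℝ) (ht0 : 0 ≤ t) (ht : t ≤ 1)
    (hC : 0 ≤ C) (hC' : 0 ≤ C') (h1 : a ≤ C * t) (h2 : b ≤ C' * t) (hc : 0 ≤ c) (hd : 0 ≤ d)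
    (hb : 0 ≤ b) : a * b + c * b + a * d ≤ (C * C' + c * C' + C * d) * t := by
  have e1 : a * b ≤ C * (C' * t) := by
    calc a * b ≤ (C * t) * (C' * t) := mul_le_mul h1 h2 hb (by positivity)
      _ = C * (C' * t) * t := by ring
      _ ≤ C * (C' * t) * 1 := mul_le_mul_of_nonneg_left ht (by positivity)
      _ = C * (C' * t) := mul_one _
  have e2 : c * b ≤ c * (C' * t) := mul_le_mul_of_nonneg_left h2 hc
  have e3 : a * d ≤ (C * t) * d := mul_le_mul_of_nonneg_right h1 hd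
  calc a * b + c * b + a * d ≤ C * (C' * t) + c * (C' * t) + (C * t) * d := by linarith
    _ = (C * C' + c * C' + C * d) * t := by ring

theorem lip_mul {R : Type} [NormedRing R] {f g : ℝ → R} (hf : Lip1 f) (hg : Lip1 g) :
    Lip1 fun u => f u * g u := by
  obtain ⟨C, hC, h⟩ := hf
  obtain ⟨C', hC', h'⟩ := hg
  refine ⟨C * C' + ‖f 1‖ * C' + C * ‖g 1‖, by positivity, fun u hu hu1 => ?_⟩
  have e : f u * g u - f 1 * g 1 =
      (f u - f 1) * (g u - g 1) + f 1 * (g u - g 1) + (f u - f 1) * g 1 := by noncomm_ring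
  rw [e]
  refine le_trans ?_ (lip_aux C C' (1 - u) (by linarith) (by linarith)
    hC hC' (h u hu hu1) (h' u hu hu1) (norm_nonneg (f 1)) (norm_nonneg (g 1))
    (norm_nonneg (g u - g 1)))
  refine (norm_add_le _ _).trans (add_le_add ((norm_add_le _ _).trans (add_le_add ?_ ?_)) ?_)
  · exact norm_mul_le _ _
  · exact norm_mul_le _ _
  · exact norm_mul_le _ _

theorem lip_smul {E : Type} [SeminormedAddCommGroup E] [NormedSpace ℂ E] {f : ℝ → ℂ} {g : ℝ → E}
    (hf : Lip1 f) (hg : Lip1 g) : Lip1 fun u => f u • g u := by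
  obtain ⟨C, hC, h⟩ := hf
  obtain ⟨C', hC', h'⟩ := hg
  refine ⟨C * C' + ‖f 1‖ * C' + C * ‖g 1‖, by positivity, fun u hu hu1 => ?_⟩
  have e : f u • g u - f 1 • g 1 =
      (f u - f 1) • (g u - g 1) + f 1 • (g u - g 1) + (f u - f 1) • g 1 := by
    simp only [sub_smul, smul_sub]
    abel
  rw [e]
  refine le_trans ?_ (lip_aux C C' (1 - u) (by linarith) (by linarith)
    hC hC' (h u hu hu1) (h' u hu hu1) (norm_nonneg (f 1)) (norm_nonneg (g 1))
    (norm_nonneg (g u - g 1)))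
  refine (norm_add_le _ _).trans (add_le_add ((norm_add_le _ _).trans (add_le_add ?_ ?_)) ?_)
  · exact (norm_smul _ _).le
  · exact (norm_smul _ _).le
  · exact (norm_smul _ _).le

theorem lip_inv : Lip1 fun u : ℝ => ((u : ℂ))⁻¹ := by
  refine ⟨2, by norm_num, fun u hu hu1 => ?_⟩
  have hu0 : (0 : ℝ) < u := by linarith
  have hu0' : (u : ℂ) ≠ 0 := by exact_mod_cast hu0.ne'
  have e : ((u : ℂ))⁻¹ - (((1 : ℝ) : ℂ))⁻¹ = (((1 - u) / u : ℝ) : ℂ) := by
    push_cast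
    field_simp
  rw [e, Complex.norm_real, Real.norm_eq_abs, abs_of_nonneg (div_nonneg (by linarith) hu0.le),
    div_le_iff₀ hu0]
  nlinarith

theorem lip_pow {R : Type} [NormedRing R] {f : ℝ → R} (hf : Lip1 f) (k : ℕ) :
    Lip1 fun u => f u ^ k := by
  induction k with
  | zero => simpa using lip_const (1 : R)
  | succ k ih =>
    simp only [pow_succ]
    exact lip_mul ih hf

theorem lip_zpow (j : ℕ) : Lip1 fun u : ℝ => ((u : ℂ)) ^ (-2 * (j : ℤ)) := by
  have e : (fun u : ℝ => ((u : ℂ)) ^ (-2 * (j : ℤ))) = fun u : ℝ => (((u : ℂ))⁻¹) ^ (2 * j) := by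
    funext u
    rw [show (-2 * (j : ℤ)) = -(((2 * j : ℕ)) : ℤ) by push_cast; ring, zpow_neg, zpow_natCast,
      inv_pow]
  rw [e]
  exact lip_pow lip_inv _

theorem lip_comp {E : Type} [SeminormedAddCommGroup E] (f : ℝ → E) (n1 : ℕ)
    (h : ∀ c : ℝ, 0 < c → ∃ C : ℝ, ∀ t : ℝ, c ≤ t → t ≤ 1 → ‖f t - f 1‖ ≤ C * (1 - t)) :
    Lip1 fun u => f (u ^ n1) := by
  obtain ⟨C, hC⟩ := h ((1 / 2) ^ n1) (by positivity)
  refine ⟨|C| * n1, by positivity, fun u hu hu1 => ?_⟩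
  have h0 : (0 : ℝ) ≤ u := by linarith
  have h1 : u ^ n1 ≤ 1 := pow_le_one₀ h0 hu1
  have h2 := hC (u ^ n1) (pow_le_pow_left₀ (by norm_num) hu n1) h1
  have h3 : 1 - u ^ n1 ≤ n1 * (1 - u) := by
    have := one_add_mul_le_pow (by linarith : (-2 : ℝ) ≤ u - 1) n1
    rw [show 1 + (u - 1) = u by ring] at this
    linarith
  simp only [one_pow]
  calc ‖f (u ^ n1) - f 1‖ ≤ C * (1 - u ^ n1) := h2
    _ ≤ |C| * (1 - u ^ n1) := mul_le_mul_of_nonneg_right (le_abs_self C) (by linarith)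
    _ ≤ |C| * (n1 * (1 - u)) := mul_le_mul_of_nonneg_left h3 (abs_nonneg C)
    _ = |C| * n1 * (1 - u) := by ring

theorem lip_adj {ι : Type} {f : ℝ → (L2 ι →L[ℂ] L2 ι)} (hf : Lip1 f) :
    Lip1 fun u => ContinuousLinearMap.adjoint (f u) := by
  obtain ⟨C, hC, h⟩ := hf
  refine ⟨C, hC, fun u hu hu1 => ?_⟩
  rw [← map_sub, LinearIsometryEquiv.norm_map]
  exact h u hu hu1

theorem lip_gop {n r : ℕ} (n1 : ℕ) (K : W n → ℝ → (L2 (Idx n r) →L[ℂ] L2 (Idx n r)))
    (hK : ∀ κ : W n, κ.length ≤ n1 → ∀ c : ℝ, 0 < c → ∃ C : ℝ, ∀ t : ℝ, c ≤ t → t ≤ 1 →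
      ‖K κ t - K κ 1‖ ≤ C * (1 - t)) : Lip1 (Gop n1 K) := by
  unfold Gop
  refine lip_add (lip_const _) (lip_sum _ _ fun j hj => lip_sum _ _ fun κ _ =>
    lip_smul (lip_zpow j) ?_)
  have hlen : (List.ofFn κ).length ≤ n1 := by
    rw [List.length_ofFn]
    exact (Finset.mem_Ico.1 hj).2.le
  have h1 := lip_comp (K (List.ofFn κ)) n1 (hK _ hlen)
  exact lip_mul (lip_adj h1) h1

/-! ### the operators at one -/

theorem inner_zero {ι : Type} (y z : L2 ι) (h : ∀ i, y i ≠ 0 → z i = 0) : inner ℂ y z = 0 := by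
  rw [lp.inner_eq_tsum]
  have : ∀ i, inner ℂ (y i) (z i) = 0 := by
    intro i
    by_cases hi : y i = 0
    · rw [hi, inner_zero_left]
    · rw [h i hi, inner_zero_right]
  rw [tsum_congr this, tsum_zero]

theorem op_ne {ι ι' : Type} {T : L2 ι →L[ℂ] L2 ι'} {a : ι → (ι' →₀ ℂ)} (h : IsOp T a) (z : L2 ι)
    (k : ι') (hk : T z k ≠ 0) : ∃ i, a i k ≠ 0 ∧ z i ≠ 0 := by
  rw [h z k] at hk
  by_contra hcon
  refine hk (finsum_eq_zero_of_forall_eq_zero fun i => ?_)
  by_contra hi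
  exact hcon ⟨i, left_ne_zero_of_mul hi, right_ne_zero_of_mul hi⟩

theorem gop_zero {n r : ℕ} (n1 M3 : ℕ) (K : W n → ℝ → (L2 (Idx n r) →L[ℂ] L2 (Idx n r)))
    (a : W n → Idx n r → (Idx n r →₀ ℂ))
    (hop : ∀ κ : W n, κ.length ≤ n1 → IsOp (K κ 1) (a κ))
    (ha : ∀ κ : W n, κ.length ≤ n1 → ∀ i k, a κ i k ≠ 0 → ilen i = ilen k + κ.length)
    (y x : L2 (Idx n r)) (hy : ∀ i : Idx n r, ilen i < M3 → y i = 0)
    (hx : ∀ i : Idx n r, M3 ≤ ilen i → x i = 0) : inner ℂ y (Gop n1 K 1 x) = 0 := by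
  unfold Gop
  simp only [add_apply, sum_apply,
    smul_apply, ContinuousLinearMap.comp_apply, one_pow]
  rw [inner_add_right]
  have e0 : inner ℂ y ((1 : L2 (Idx n r) →L[ℂ] L2 (Idx n r)) x) = 0 := by
    refine inner_zero y x fun i hi => ?_
    refine hx i ?_
    by_contra hc
    exact hi (hy i (not_le.1 hc))
  rw [e0, zero_add, inner_sum]
  refine Finset.sum_eq_zero fun j hj => ?_
  rw [inner_sum]
  refine Finset.sum_eq_zero fun κ _ => ?_
  rw [inner_smul_right, ContinuousLinearMap.adjoint_inner_right]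
  have hlen : (List.ofFn κ).length ≤ n1 := by
    rw [List.length_ofFn]
    exact (Finset.mem_Ico.1 hj).2.le
  have e1 : inner ℂ (K (List.ofFn κ) 1 y) (K (List.ofFn κ) 1 x) = 0 := by
    refine inner_zero _ _ fun k hk => ?_
    by_contra hk'
    obtain ⟨i, hi1, hi2⟩ := op_ne (hop _ hlen) y k hk
    obtain ⟨i', hi1', hi2'⟩ := op_ne (hop _ hlen) x k hk'
    have g1 := ha _ hlen i k hi1
    have g2 := ha _ hlen i' k hi1'
    have g3 : M3 ≤ ilen i := by
      by_contra hc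
      exact hi2 (hy i (not_le.1 hc))
    have g4 : ilen i' < M3 := by
      by_contra hc
      exact hi2' (hx i' (not_lt.1 hc))
    omega
  rw [e1, mul_zero]

section

variable {n : ℕ} {L : Type} [Ring L] [Algebra ℂ L] [StarRing L] [StarModule ℂ L] [Nontrivial L]

theorem cf_w (h3 : StA3) (D : Sys n L) (ν : W n) : D.cf (D.w ν) = Finsupp.single ν 1 := by
  have h := (h3 n L D).2.1 (Finsupp.single ν 1)
  have e : D.emb (Finsupp.single ν 1) = D.w ν := by
    unfold Sys.emb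
    rw [Finsupp.linearCombination_single, one_smul]
  rw [e] at h
  exact h

theorem kc_cf (h1 : StA0) (h2 : StA1) (h3 : StA3) (D : Sys n L) (κ ν μ : W n)
    (hlen : κ.length ≤ ν.length)
    (h : D.cf (star (D.b.ev (((1 : ℝ)) : ℂ) (D.w κ)) * D.w ν) μ ≠ 0) :
    ν.length = μ.length + κ.length := by
  rw [Complex.ofReal_one, (h1 L D.b).2.2.2.2.1] at h
  by_cases hp : κ <+: ν
  · obtain ⟨ν', rfl⟩ := hp
    rw [(h2 n L D).2.1 κ ν', cf_w h3 D ν'] at h
    have : μ = ν' := by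
      by_contra hne
      exact h (Finsupp.single_eq_of_ne hne)
    rw [this, List.length_append, add_comm]
  · have hp' : ¬ ν <+: κ := by
      intro hq
      have he := hq.eq_of_length (le_antisymm hq.length_le hlen)
      rw [he] at hp
      exact hp ⟨[], List.append_nil κ⟩
    rw [(h2 n L D).2.2.2.1 κ ν hp hp', map_zero] at h
    exact absurd rfl h

theorem md_ne {α β : Type} (f : α → β) (p : α →₀ ℂ) (k : β) (h : p.mapDomain f k ≠ 0) :
    ∃ μ, k = f μ ∧ p μ ≠ 0 := by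
  classical
  have h' : k ∈ (p.mapDomain f).support := Finsupp.mem_support_iff.2 h
  obtain ⟨μ, hμ, rfl⟩ := Finset.mem_image.1 (Finsupp.mapDomain_support h')
  exact ⟨μ, rfl, Finsupp.mem_support_iff.1 hμ⟩

theorem kc (h1 : StA0) (h2 : StA1) (h3 : StA3) (D : Sys n L) (r n1 M4 : ℕ) (hM : n1 ≤ M4)
    (κ : W n) (hκ : κ.length ≤ n1) (i k : Idx n r) (h : D.kcol r M4 1 κ i k ≠ 0) :
    ilen i = ilen k + κ.length := by
  rcases i with (ν | ν) | a
  · unfold Sys.kcol at h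
    simp only [] at h
    by_cases hν : M4 ≤ ν.length
    · rw [if_pos hν] at h
      obtain ⟨μ, rfl, hμ⟩ := md_ne _ _ _ h
      exact kc_cf h1 h2 h3 D κ ν μ (by omega) hμ
    · rw [if_neg hν] at h
      exact absurd rfl h
  · unfold Sys.kcol at h
    simp only [] at h
    by_cases hν : M4 ≤ ν.length
    · rw [if_pos hν] at h
      obtain ⟨μ, rfl, hμ⟩ := md_ne _ _ _ h
      rw [Finsupp.mapRange_apply] at hμ
      refine kc_cf h1 h2 h3 D κ ν μ (by omega) ?_
      intro h0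
      rw [h0, star_zero] at hμ
      exact hμ rfl
    · rw [if_neg hν] at h
      exact absurd rfl h
  · exact absurd rfl h

theorem acol_sum (h2 : StA1) (h3 : StA3) (D : Sys n L) (X0 : Set L) (m : MData n L)
    (hm : IsModel D X0 m) (a : Fin n) (ν : W n) :
    ∑ j ∈ m.Z, D.acol j (a :: ν) = Finsupp.single (ν ++ [a]) 1 := by
  unfold Sys.acol
  rw [← map_sum, ← cf_w h3 D (ν ++ [a])]
  congr 1
  rw [Finset.sum_comm]
  have hx : ∀ i, ∑ j ∈ m.Z, D.b.p j (D.x i) = D.x i := by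
    intro i
    conv_rhs => rw [← D.b.sum (D.x i)]
    rw [finsum_eq_sum_of_support_subset]
    intro j hj
    by_contra hjZ
    exact hj (hm.zx j hjZ i)
  have hwx : ∀ b : Fin n, D.w [b] = D.x b := by
    intro b
    unfold Sys.w wd
    simp
  have hw : D.w (a :: ν) = D.x a * D.w ν := by
    have := (h2 n L D).1 [a] ν
    rw [hwx] at this
    exact this
  have e : ∀ i, ∑ j ∈ m.Z, star (D.b.p j (D.x i)) * D.w (a :: ν) * D.x i =
      star (D.x i) * D.w (a :: ν) * D.x i := by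
    intro i
    rw [← Finset.sum_mul, ← Finset.sum_mul, ← star_sum, hx]
  rw [Finset.sum_congr rfl fun i _ => e i, hw, (h2 n L D).1 ν [a], hwx]
  rw [Finset.sum_eq_single a]
  · rw [← mul_assoc (star (D.x a)), D.orth, if_pos rfl, one_mul]
  · intro b _ hb
    rw [← mul_assoc (star (D.x b)), D.orth, if_neg hb, zero_mul, zero_mul]
  · intro h
    exact absurd (Finset.mem_univ a) h

theorem fc (h2 : StA1) (h3 : StA3) (D : Sys n L) (X0 : Set L) (m : MData n L)
    (hm : IsModel D X0 m) (c M3 : ℕ)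
    (hc : ∀ j i i', m.F j i i' ≠ 0 → ilen i' ≤ ilen i + c ∧ ilen i ≤ ilen i' + c)
    (hM3 : m.M2 + c + 1 ≤ M3) (i k : Idx n m.r) (hi : ilen i < M3) (h : m.Fc 1 i k ≠ 0) :
    ilen k < M3 := by
  have e : m.Fc 1 i k = ∑ j ∈ m.Z, m.F j i k := by
    unfold MData.Fc
    rw [Finsupp.finsetSum_apply]
    refine Finset.sum_congr rfl fun j _ => ?_
    rw [Complex.ofReal_one, one_zpow, one_smul]
  by_cases hlt : ilen i < m.M2
  · rw [e] at h
    obtain ⟨j, _, hj⟩ := Finset.exists_ne_zero_of_sum_ne_zero h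
    have := (hc j i k hj).1
    omega
  · have hM := hm.M1
    have hMM := hm.MM
    rcases i with (ν | ν) | a
    · have hν : m.M2 ≤ ν.length := not_lt.1 hlt
      rcases ν with _ | ⟨a, ν⟩
      · simp only [List.length_nil] at hν
        omega
      rw [e, Finset.sum_congr rfl fun j hj => by rw [hm.long1 j hj (a :: ν) hν]] at h
      rw [← Finsupp.finsetSum_apply, ← Finsupp.mapDomain_finsetSum,
        acol_sum h2 h3 D X0 m hm a ν] at h
      obtain ⟨μ, rfl, hμ⟩ := md_ne _ _ _ h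
      have : μ = ν ++ [a] := by
        by_contra hne
        exact hμ (Finsupp.single_eq_of_ne hne)
      subst this
      have h5 : (a :: ν).length < M3 := hi
      show (ν ++ [a]).length < M3
      rw [List.length_append, List.length_singleton]
      rw [List.length_cons] at h5
      exact h5
    · have hν : m.M2 ≤ ν.length := not_lt.1 hlt
      rcases ν with _ | ⟨a, ν⟩
      · simp only [List.length_nil] at hν
        omega
      have e2 : ∑ j ∈ m.Z, m.F j (Sum.inl (Sum.inr (a :: ν))) =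
          (((∑ j ∈ m.Z, D.acol j (a :: ν)).mapRange star (star_zero ℂ)).mapDomain
            fun μ => Sum.inl (Sum.inr μ)) := by
        rw [Finset.sum_congr rfl fun j hj => hm.long2 j hj (a :: ν) hν,
          ← Finsupp.mapDomain_finsetSum]
        congr 1
        ext μ
        rw [Finsupp.finsetSum_apply, Finsupp.mapRange_apply, Finsupp.finsetSum_apply, star_sum]
        rfl
      rw [e, ← Finsupp.finsetSum_apply, e2, acol_sum h2 h3 D X0 m hm a ν] at h
      obtain ⟨μ, rfl, hμ⟩ := md_ne _ _ _ h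
      rw [Finsupp.mapRange_apply] at hμ
      have : μ = ν ++ [a] := by
        by_contra hne
        rw [Finsupp.single_eq_of_ne hne, star_zero] at hμ
        exact hμ rfl
      subst this
      have h5 : (a :: ν).length < M3 := hi
      show (ν ++ [a]).length < M3
      rw [List.length_append, List.length_singleton]
      rw [List.length_cons] at h5
      exact h5
    · exact absurd (show (0 : ℕ) < m.M2 by omega) hlt

end

theorem hD8 (h1 : StA0) (h2 : StA1) (h3 : StA3) : StD8 := by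
  intro n L _ _ _ _ _ D X0 m n1 M4 hm hL hM K Ph hK hPh hKl hPl
  obtain ⟨c, hc⟩ := hm.band
  refine ⟨m.M2 + c + 1, fun M3 hM3 => ?_⟩
  have hGl : Lip1 (Gop n1 K) := lip_gop n1 K hKl
  have hG2l : Lip1 (fun u => Gop n1 K u * Ph (u ^ n1)) := lip_mul hGl (lip_comp Ph n1 hPl)
  obtain ⟨C1, hC1, hG⟩ := hGl
  obtain ⟨C2, hC2, hG2⟩ := hG2l
  refine ⟨C1 + C2, fun u hu hu1 s hs hs1 y z hy hz => ?_⟩
  have hz0 : ∀ x : L2 (Idx n m.r), (∀ i : Idx n m.r, M3 ≤ ilen i → x i = 0) →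
      inner ℂ y (Gop n1 K 1 x) = 0 := fun x hx =>
    gop_zero n1 M3 K (fun κ => D.kcol m.r M4 1 κ) (fun κ hκ => hK κ hκ 1 one_pos)
      (fun κ hκ i k h => kc h1 h2 h3 D m.r n1 M4 hL.le κ hκ i k h) y x hy hx
  have z1 := hz0 z hz
  have z2 : inner ℂ y (Gop n1 K 1 (Ph 1 z)) = 0 := by
    refine hz0 _ fun k hk => ?_
    by_contra hne
    obtain ⟨i, hi1, hi2⟩ := op_ne (hPh 1 one_pos) z k hne
    have hi : ilen i < M3 := by
      by_contra hc'
      exact hi2 (hz i (not_lt.1 hc'))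
    have := fc h2 h3 D X0 m hm c M3 hc hM3 i k hi hi1
    omega
  have e1 : Gop n1 K u (z - (s : ℂ) • Ph (u ^ n1) z) =
      (Gop n1 K u - Gop n1 K 1) z -
        (s : ℂ) • ((Gop n1 K u * Ph (u ^ n1) - Gop n1 K 1 * Ph (1 ^ n1)) z) +
        (Gop n1 K 1 z - (s : ℂ) • Gop n1 K 1 (Ph 1 z)) := by
    rw [map_sub, map_smul, one_pow]
    have r1 : (Gop n1 K u * Ph (u ^ n1)) z = Gop n1 K u (Ph (u ^ n1) z) := rfl
    have r2 : (Gop n1 K 1 * Ph 1) z = Gop n1 K 1 (Ph 1 z) := rfl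
    rw [sub_apply, sub_apply, r1, r2, smul_sub]
    abel
  rw [e1, inner_add_right, inner_sub_right, inner_sub_right, inner_smul_right, inner_smul_right,
    z1, z2, mul_zero, sub_zero, add_zero]
  have hsn : ‖(s : ℂ)‖ ≤ 1 := by
    rw [Complex.norm_real, Real.norm_eq_abs, abs_of_nonneg hs]
    exact hs1
  have k1 : ‖inner ℂ y ((Gop n1 K u - Gop n1 K 1) z)‖ ≤ ‖y‖ * (C1 * (1 - u) * ‖z‖) := by
    refine (norm_inner_le_norm _ _).trans (mul_le_mul_of_nonneg_left ?_ (norm_nonneg _))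
    exact (ContinuousLinearMap.le_opNorm _ _).trans
      (mul_le_mul_of_nonneg_right (hG u hu hu1) (norm_nonneg _))
  have k2 : ‖inner ℂ y ((Gop n1 K u * Ph (u ^ n1) - Gop n1 K 1 * Ph (1 ^ n1)) z)‖ ≤
      ‖y‖ * (C2 * (1 - u) * ‖z‖) := by
    refine (norm_inner_le_norm _ _).trans (mul_le_mul_of_nonneg_left ?_ (norm_nonneg _))
    exact (ContinuousLinearMap.le_opNorm _ _).trans
      (mul_le_mul_of_nonneg_right (hG2 u hu hu1) (norm_nonneg _))
  refine (norm_sub_le _ _).trans ?_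
  rw [norm_mul]
  have k3 : ‖(s : ℂ)‖ * ‖inner ℂ y ((Gop n1 K u * Ph (u ^ n1) - Gop n1 K 1 * Ph (1 ^ n1)) z)‖ ≤
      ‖y‖ * (C2 * (1 - u) * ‖z‖) :=
    (mul_le_of_le_one_left (norm_nonneg _) hsn).trans k2
  calc _ ≤ ‖y‖ * (C1 * (1 - u) * ‖z‖) + ‖y‖ * (C2 * (1 - u) * ‖z‖) := add_le_add k1 k3
    _ = (C1 + C2) * (1 - u) * ‖y‖ * ‖z‖ := by ring

end Pool.Agent.Helper12.SI
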